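import Pool.Agent.helper83.LS.Spec

set_option autoImplicit false

namespace LSH

theorem FA_core (hOB : OB_stmt) (hEE : EE_stmt) (t : BT) (S : Finset Pt) (p : Pt) (h : Bool)
    (d : PT) (hG : Gen (S : Set Pt)) (hd : Draw t S d)
    (hk : ∀ z : Pt, (⟨p, d.root, h⟩ : Edge).on z → ∀ a ∈ S, ∀ b ∈ S,
      z.1 ∈ Set.uIcc a.1 b.1 → z.2 ∈ Set.uIcc a.2 b.2 → z = d.root) :
    Att p h t S d := by
  obtain ⟨hs, hp, hN⟩ := hd
  refine ⟨hs, hp, ?_⟩
  unfold att
  rw [List.pairwise_cons]
  refine ⟨?_, hN⟩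
  intro f hf z hz1 hz2
  obtain ⟨ha, hb⟩ := hEE.1 d f hf
  have hr := hEE.2.1 d
  rw [hp] at ha hb hr
  have ha' : f.a ∈ S := ha
  have hb' : f.b ∈ S := hb
  have hr' : d.root ∈ S := hr
  obtain ⟨h1, h2⟩ := hOB.1 f z hz2
  have hzr : z = d.root := hk z hz1 f.a ha' f.b hb' h1 h2
  refine ⟨Or.inr hzr, ?_⟩
  have hzS : z ∈ (S : Set Pt) := by rw [hzr]; exact hr'
  exact hOB.2.1 (S : Set Pt) f z hG ha' hb' hzS hz2

theorem FA_gen (S : Finset Pt) (p : Pt) (hG : Gen (insert p (S : Set Pt))) :
    Gen (S : Set Pt) := by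
  intro a ha b hb hab
  exact hG a (Set.mem_insert_of_mem _ ha) b (Set.mem_insert_of_mem _ hb) hab

theorem FA_lo (x a b c : ℝ) (h : x ∈ Set.uIcc a b) (ha : c ≤ a) (hb : c ≤ b) : c ≤ x := by
  rw [Set.mem_uIcc] at h
  rcases h with h | h
  · exact le_trans ha h.1
  · exact le_trans hb h.1

theorem FA_hi (x a b c : ℝ) (h : x ∈ Set.uIcc a b) (ha : a ≤ c) (hb : b ≤ c) : x ≤ c := by
  rw [Set.mem_uIcc] at h
  rcases h with h | h
  · exact le_trans h.2 hb
  · exact le_trans h.2 ha

theorem FA (hOB : OB_stmt) (hEE : EE_stmt) (hDL : DL_stmt) : FA_stmt := by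
  intro t hL S p hc hG
  have hGS := FA_gen S p hG
  refine ⟨?_, ?_, ?_, ?_⟩
  · intro hp
    obtain ⟨d, hd, hr⟩ := hL S hc hGS
    refine ⟨d, ?_, hr⟩
    apply FA_core hOB hEE t S p false d hGS hd
    intro z hz a ha b hb h1 h2
    have hrS : d.root ∈ S := by
      have h := hEE.2.1 d
      rw [hd.2.1] at h
      exact h
    have hlo := FA_lo z.1 a.1 b.1 d.root.1 h1 (hr a ha) (hr b hb)
    have hpr := hp d.root hrS
    rcases hz with hz | hz
    · exact absurd hz.1 (by simp)
    · rcases hz.2 with h | h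
      · exfalso
        have := h.1
        simp only at this
        linarith
      · have h3 : z.2 = d.root.2 := h.1
        have h4 : z.1 ∈ Set.uIcc p.1 d.root.1 := h.2
        have h5 := FA_hi z.1 p.1 d.root.1 d.root.1 h4 hpr.le le_rfl
        exact Prod.ext (le_antisymm h5 hlo) h3
  · intro hp
    obtain ⟨d, hd, hr⟩ := (hDL t hL S hc hGS).1
    refine ⟨d, ?_, hr⟩
    apply FA_core hOB hEE t S p false d hGS hd
    intro z hz a ha b hb h1 h2
    have hrS : d.root ∈ S := by
      have h := hEE.2.1 d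
      rw [hd.2.1] at h
      exact h
    have hlo := FA_hi z.1 a.1 b.1 d.root.1 h1 (hr a ha) (hr b hb)
    have hpr := hp d.root hrS
    rcases hz with hz | hz
    · exact absurd hz.1 (by simp)
    · rcases hz.2 with h | h
      · exfalso
        have := h.1
        simp only at this
        linarith
      · have h3 : z.2 = d.root.2 := h.1
        have h4 : z.1 ∈ Set.uIcc p.1 d.root.1 := h.2
        have h5 := FA_lo z.1 p.1 d.root.1 d.root.1 h4 hpr.le le_rfl
        exact Prod.ext (le_antisymm hlo h5) h3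
  · intro hp
    obtain ⟨d, hd, hr⟩ := (hDL t hL S hc hGS).2.1
    refine ⟨d, ?_, hr⟩
    apply FA_core hOB hEE t S p true d hGS hd
    intro z hz a ha b hb h1 h2
    have hrS : d.root ∈ S := by
      have h := hEE.2.1 d
      rw [hd.2.1] at h
      exact h
    have hlo := FA_lo z.2 a.2 b.2 d.root.2 h2 (hr a ha) (hr b hb)
    have hpr := hp d.root hrS
    rcases hz with hz | hz
    · rcases hz.2 with h | h
      · exfalso
        have := h.1
        simp only at this
        linarith
      · have h3 : z.1 = d.root.1 := h.1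
        have h4 : z.2 ∈ Set.uIcc p.2 d.root.2 := h.2
        have h5 := FA_hi z.2 p.2 d.root.2 d.root.2 h4 hpr.le le_rfl
        exact Prod.ext h3 (le_antisymm h5 hlo)
    · exact absurd hz.1 (by simp)
  · intro hp
    obtain ⟨d, hd, hr⟩ := (hDL t hL S hc hGS).2.2
    refine ⟨d, ?_, hr⟩
    apply FA_core hOB hEE t S p true d hGS hd
    intro z hz a ha b hb h1 h2
    have hrS : d.root ∈ S := by
      have h := hEE.2.1 d
      rw [hd.2.1] at h
      exact h
    have hlo := FA_hi z.2 a.2 b.2 d.root.2 h2 (hr a ha) (hr b hb)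
    have hpr := hp d.root hrS
    rcases hz with hz | hz
    · rcases hz.2 with h | h
      · exfalso
        have := h.1
        simp only at this
        linarith
      · have h3 : z.1 = d.root.1 := h.1
        have h4 : z.2 ∈ Set.uIcc p.2 d.root.2 := h.2
        have h5 := FA_lo z.2 p.2 d.root.2 d.root.2 h4 hpr.le le_rfl
        exact Prod.ext h3 (le_antisymm hlo h5)
    · exact absurd hz.1 (by simp)

end LSH
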